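import Pool.Agent.helper95.T5.SpecE

set_option autoImplicit false

/-!
Row EQE of T5 (MP_16912e_nt): the error in boxes.
-/

namespace Pool.Agent.T5

open Finset NumberField Pool.Agent.helper3.FT Pool.Agent.helper47.RA

/-! ### Arithmetic -/

theorem EQE_e1_congr {e n m : ℕ} (h : ∀ p : ℕ, p.Prime → p ∣ e → (p ∣ n ↔ p ∣ m)) : e1 e n = e1 e m := by
  unfold e1
  congr 1
  refine Finset.filter_congr fun p hp => ?_
  rw [h p (Nat.prime_of_mem_primeFactors hp) (Nat.dvd_of_mem_primeFactors hp)]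

theorem EQE_e1_class {e n : ℕ} {c : ℤ} (h : (e : ℤ) ∣ (n : ℤ) - c) : e1 e n = e1 e c.natAbs := by
  refine EQE_e1_congr fun p _ hpe => ?_
  have h1 : (p : ℤ) ∣ (n : ℤ) - c := (Int.natCast_dvd_natCast.2 hpe).trans h
  rw [← Int.natCast_dvd_natCast (n := n), ← Int.natCast_dvd]
  constructor
  · intro h2
    have := dvd_sub h2 h1
    simpa using this
  · intro h2
    have := dvd_add h1 h2
    simpa using this

theorem EQE_e1_pos (e n : ℕ) : 1 ≤ e1 e n := by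
  have h : 0 < e1 e n := Finset.prod_pos fun p hp =>
    pow_pos (Nat.prime_of_mem_primeFactors (Finset.mem_filter.1 hp).1).pos _
  exact h

theorem EQE_e1_coprime (e n : ℕ) : Nat.Coprime n (e1 e n) := by
  refine Nat.Coprime.prod_right fun p hp => ?_
  obtain ⟨h1, h2⟩ := Finset.mem_filter.1 hp
  refine Nat.Coprime.pow_right _ ?_
  exact ((Nat.prime_of_mem_primeFactors h1).coprime_iff_not_dvd.2 h2).symm

/-! ### Intervals -/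

theorem EQE_int {x y : ℝ} (h : x ≤ y) : ∃ (m₀ : ℤ) (M : ℕ), |(M : ℝ) - (y - x)| ≤ 1 ∧
    ∀ m : ℤ, (x < m ∧ (m : ℝ) ≤ y) ↔ (m₀ ≤ m ∧ m < m₀ + M) := by
  have hf : ⌊x⌋ ≤ ⌊y⌋ := Int.floor_le_floor h
  refine ⟨⌊x⌋ + 1, (⌊y⌋ - ⌊x⌋).toNat, ?_, ?_⟩
  · have h1 : (((⌊y⌋ - ⌊x⌋).toNat : ℕ) : ℝ) = (⌊y⌋ : ℝ) - ⌊x⌋ := by
      have h2 : (((⌊y⌋ - ⌊x⌋).toNat : ℕ) : ℤ) = ⌊y⌋ - ⌊x⌋ := Int.toNat_of_nonneg (by omega)
      have h3 : (((⌊y⌋ - ⌊x⌋).toNat : ℕ) : ℝ) = (((⌊y⌋ - ⌊x⌋).toNat : ℕ) : ℤ) := by push_cast; rfl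
      rw [h3, h2]
      push_cast
      rfl
    rw [h1, abs_le]
    have := Int.floor_le x
    have := Int.lt_floor_add_one x
    have := Int.floor_le y
    have := Int.lt_floor_add_one y
    constructor <;> linarith
  · intro m
    have h2 : (((⌊y⌋ - ⌊x⌋).toNat : ℕ) : ℤ) = ⌊y⌋ - ⌊x⌋ := Int.toNat_of_nonneg (by omega)
    rw [h2]
    constructor
    · rintro ⟨h3, h4⟩
      have h5 : ⌊x⌋ < m := Int.floor_lt.2 h3
      have h6 : m ≤ ⌊y⌋ := Int.le_floor.2 h4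
      constructor <;> omega
    · rintro ⟨h3, h4⟩
      exact ⟨Int.floor_lt.1 (by omega), Int.le_floor.1 (by omega)⟩

/-! ### Sizes -/

/-- all the inequalities between the sizes -/
structure EQE_Sz (δ N Y Y₂ : ℝ) : Prop where
  Yp : 0 < Y
  Y2p : 0 < Y₂
  l1 : N ^ (0.1 : ℝ) ≤ sN N Y Y₂
  l2 : N ^ (0.1 : ℝ) ≤ sK N Y Y₂
  l3 : N ^ (0.1 : ℝ) ≤ sM N Y Y₂
  l4 : N ^ (0.1 : ℝ) ≤ sG N Y Y₂
  l5 : N ^ (0.1 : ℝ) ≤ Y
  l6 : N ^ (0.1 : ℝ) * Y ≤ sN N Y Y₂ ^ 3 * sK N Y Y₂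
  u1 : sN N Y Y₂ ≤ N ^ (0.6 : ℝ)
  u2 : sK N Y Y₂ ≤ N ^ (0.6 : ℝ)
  u3 : sM N Y Y₂ ≤ N ^ (0.6 : ℝ)
  u4 : sG N Y Y₂ ≤ N ^ (0.6 : ℝ)
  u6 : sN N Y Y₂ ^ 3 * sK N Y Y₂ ≤ N ^ (0.6 : ℝ) * Y
  eq : sM N Y Y₂ * sG N Y Y₂ = Y₂ * sN N Y Y₂ ^ 2
  re : relE δ N Y Y₂ 1 ≤ 2 * N ^ (-(0.9 * δ))
  rg : Rng δ N Y Y₂

theorem EQE_sz {δ N Y : ℝ} (hδ : 0 < δ) (hδ1 : δ ≤ 1 / 10) (hN : 1 ≤ N) (hY : N ^ (0.39 : ℝ) ≤ Y)
    (hY2 : Y ≤ N ^ (1 / 2 - δ)) : EQE_Sz δ N Y (N ^ (1 / 2 + δ / 100)) := by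
  have hN0 : 0 < N := by linarith
  have hYp : 0 < Y := lt_of_lt_of_le (by positivity) hY
  obtain ⟨l, hl⟩ : ∃ l, l = Real.log N := ⟨_, rfl⟩
  obtain ⟨y, hy⟩ : ∃ y, y = Real.log Y := ⟨_, rfl⟩
  obtain ⟨t, ht⟩ : ∃ t, t = δ * l := ⟨_, rfl⟩
  have hl0 : 0 ≤ l := by rw [hl]; exact Real.log_nonneg hN
  have hNl : N = Real.exp l := by rw [hl, Real.exp_log hN0]
  have hYy : Y = Real.exp y := by rw [hy, Real.exp_log hYp]
  have hpow : ∀ s : ℝ, N ^ s = Real.exp (s * l) := by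
    intro s
    rw [Real.rpow_def_of_pos hN0, ← hl, mul_comm]
  have ht0 : 0 ≤ t := by rw [ht]; positivity
  have ht1 : t ≤ l / 10 := by rw [ht]; nlinarith
  have hy1 : 0.39 * l ≤ y := by
    rw [hpow, hYy, Real.exp_le_exp] at hY
    exact hY
  have hy2 : y ≤ l / 2 - t := by
    rw [hpow, hYy, Real.exp_le_exp] at hY2
    rw [ht]
    linarith
  have hY₂ : N ^ (1 / 2 + δ / 100) = Real.exp (l / 2 + t / 100) := by
    rw [hpow, ht]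
    congr 1
    ring
  have hsq : ∀ x : ℝ, √(Real.exp x) = Real.exp (x / 2) := fun x => (Real.exp_half x).symm
  have e1 : sN N Y (N ^ (1 / 2 + δ / 100)) = Real.exp (y - l / 4 + t / 200) := by
    unfold sN
    rw [hY₂, hYy, hNl, hsq, hsq, ← Real.exp_add, ← Real.exp_sub]
    congr 1
    ring
  have e2 : sK N Y (N ^ (1 / 2 + δ / 100)) = Real.exp (y / 2 + t / 100) := by
    unfold sK
    rw [hY₂, hYy, hNl, hsq, hsq, ← Real.exp_add, ← Real.exp_sub]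
    congr 1
    ring
  have e3 : sM N Y (N ^ (1 / 2 + δ / 100)) = Real.exp (3 * y / 2 - l / 4 + t / 200) := by
    unfold sM
    rw [hY₂, hYy, hNl, hsq, hsq, hsq, ← Real.exp_add, ← Real.exp_add, ← Real.exp_sub]
    congr 1
    ring
  have e4 : sG N Y (N ^ (1 / 2 + δ / 100)) = Real.exp (y / 2 + l / 4 + 3 * t / 200) := by
    unfold sG
    rw [hY₂, hYy, hNl, hsq, hsq, hsq, ← Real.exp_add, ← Real.exp_add, ← Real.exp_sub]
    congr 1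
    ring
  refine ⟨hYp, by positivity, ?_, ?_, ?_, ?_, ?_, ?_, ?_, ?_, ?_, ?_, ?_, ?_, ?_, ?_⟩
  · rw [e1, hpow, Real.exp_le_exp]; linarith
  · rw [e2, hpow, Real.exp_le_exp]; linarith
  · rw [e3, hpow, Real.exp_le_exp]; linarith
  · rw [e4, hpow, Real.exp_le_exp]; linarith
  · rw [hYy, hpow, Real.exp_le_exp]; linarith
  · rw [e1, e2, hpow, hYy, ← Real.exp_nat_mul, ← Real.exp_add, ← Real.exp_add, Real.exp_le_exp]
    push_cast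
    linarith
  · rw [e1, hpow, Real.exp_le_exp]; linarith
  · rw [e2, hpow, Real.exp_le_exp]; linarith
  · rw [e3, hpow, Real.exp_le_exp]; linarith
  · rw [e4, hpow, Real.exp_le_exp]; linarith
  · rw [e1, e2, hpow, hYy, ← Real.exp_nat_mul, ← Real.exp_add, ← Real.exp_add, Real.exp_le_exp]
    push_cast
    linarith
  · rw [e1, e3, e4, hY₂, ← Real.exp_nat_mul, ← Real.exp_add, ← Real.exp_add]
    congr 1
    push_cast
    ring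
  · unfold relE
    have f1 : Y * N ^ (1 / 2 + δ / 100) / N = Real.exp (y - l / 2 + t / 100) := by
      rw [hY₂, hYy, hNl, ← Real.exp_add, ← Real.exp_sub]
      congr 1
      ring
    have f2 : (Real.exp (y - l / 2 + t / 100)) ^ (3 / 2 : ℝ) = Real.exp (3 / 2 * (y - l / 2 + t / 100)) := by
      rw [← Real.exp_mul]
      congr 1
      ring
    have f3 : max 1 (N / Y ^ (5 / 2 : ℝ)) = Real.exp (max 0 (l - 5 * y / 2)) := by
      have : N / Y ^ (5 / 2 : ℝ) = Real.exp (l - 5 * y / 2) := by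
        rw [hYy, hNl, ← Real.exp_mul, ← Real.exp_sub]
        congr 1
        ring
      rw [this, ← Real.exp_zero]
      exact (Real.exp_monotone.map_max).symm
    have f4 : N ^ (δ / 100) = Real.exp (t / 100) := by
      rw [hpow, ht]
      congr 1
      ring
    have f5 : N ^ (-(0.9 * δ)) = Real.exp (-(0.9 * t)) := by
      rw [hpow, ht]
      congr 1
      ring
    rw [f1, f2, f3, f4, f5, hsq, one_mul, ← Real.exp_add, ← Real.exp_add]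
    have g1 : 1 + √(Real.exp (y - l / 2 + t / 100)) ≤ 2 := by
      rw [hsq]
      have : Real.exp ((y - l / 2 + t / 100) / 2) ≤ Real.exp 0 := by
        rw [Real.exp_le_exp]
        linarith
      rw [Real.exp_zero] at this
      linarith
    have g2 : Real.exp (t / 100 + max 0 (l - 5 * y / 2) / 2 + 3 / 2 * (y - l / 2 + t / 100)) ≤
        Real.exp (-(0.9 * t)) := by
      rw [Real.exp_le_exp]
      rcases le_total 0 (l - 5 * y / 2) with h | h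
      · rw [max_eq_right h]
        linarith
      · rw [max_eq_left h]
        linarith
    calc _ ≤ Real.exp (-(0.9 * t)) * 2 := mul_le_mul g2 g1 (by positivity) (by positivity)
      _ = 2 * Real.exp (-(0.9 * t)) := by ring
  · refine ⟨?_, hY2, ?_, le_rfl⟩
    · rw [hYy, hpow, Real.exp_le_exp]; linarith
    · rw [hpow, hY₂, Real.exp_le_exp]; linarith

/-! ### The error of the main terms -/

theorem EQE_main {η C τ m g v M G V e q X card : ℝ} (hη : 0 ≤ η) (hC : 0 ≤ C) (hτ : 0 ≤ τ) (hτ1 : τ ≤ 1)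
    (hm : 1 ≤ τ * m) (hg : 1 ≤ τ * g) (hv : 1 ≤ τ * v) (hM : |M - m| ≤ 1) (hG : |G - g| ≤ 1) (hV : |V - v| ≤ 1)
    (m0 : 0 < m) (g0 : 0 < g) (v0 : 0 < v) (he : 1 ≤ e) (hq : 0 < q)
    (h : |card - M / e * (G / e) * V / q| ≤ (η * (M / e * (G / e)) + C * (M / e + G / e)) * V / q + X) :
    |card - m / e * (g / e) * v / q| ≤ (8 * η + (8 * C + 7) * τ) * (m * g * v) / q + X := by
  rw [abs_le] at hM hG hV
  have M1 : M ≤ (1 + τ) * m := by linarith [hM.2]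
  have M2 : (1 - τ) * m ≤ M := by linarith [hM.1]
  have G1 : G ≤ (1 + τ) * g := by linarith [hG.2]
  have G2 : (1 - τ) * g ≤ G := by linarith [hG.1]
  have V1 : V ≤ (1 + τ) * v := by linarith [hV.2]
  have V2 : (1 - τ) * v ≤ V := by linarith [hV.1]
  have M0 : 0 ≤ M := le_trans (mul_nonneg (by linarith) m0.le) M2
  have G0 : 0 ≤ G := le_trans (mul_nonneg (by linarith) g0.le) G2
  have V0 : 0 ≤ V := le_trans (mul_nonneg (by linarith) v0.le) V2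
  have M3 : M ≤ 2 * m := M1.trans (by nlinarith)
  have G3 : G ≤ 2 * g := G1.trans (by nlinarith)
  have V3 : V ≤ 2 * v := V1.trans (by nlinarith)
  have e0 : 0 < e := by linarith
  have P0 : 0 < m * g * v := by positivity
  -- product difference
  have p1 : M * G * V ≤ (1 + 7 * τ) * (m * g * v) := by
    calc M * G * V ≤ ((1 + τ) * m) * ((1 + τ) * g) * ((1 + τ) * v) := by gcongr
      _ = (1 + τ) ^ 3 * (m * g * v) := by ring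
      _ ≤ (1 + 7 * τ) * (m * g * v) := by
          refine mul_le_mul_of_nonneg_right ?_ P0.le
          nlinarith [mul_nonneg hτ (sub_nonneg.2 hτ1), mul_nonneg (mul_nonneg hτ hτ) (sub_nonneg.2 hτ1)]
  have p2 : (1 - 7 * τ) * (m * g * v) ≤ M * G * V := by
    have t1 : 0 ≤ 1 - τ := by linarith
    calc (1 - 7 * τ) * (m * g * v) ≤ (1 - τ) ^ 3 * (m * g * v) := by
          refine mul_le_mul_of_nonneg_right ?_ P0.le
          nlinarith [mul_nonneg hτ t1, mul_nonneg (mul_nonneg hτ hτ) t1]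
      _ = ((1 - τ) * m) * ((1 - τ) * g) * ((1 - τ) * v) := by ring
      _ ≤ M * G * V := by gcongr
  have p3 : |M * G * V - m * g * v| ≤ 7 * τ * (m * g * v) := by
    rw [abs_le]
    constructor <;> linarith
  have p4 : |M / e * (G / e) * V / q - m / e * (g / e) * v / q| ≤ 7 * τ * (m * g * v) / q := by
    have : M / e * (G / e) * V / q - m / e * (g / e) * v / q = (M * G * V - m * g * v) / (e ^ 2 * q) := by
      field_simp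
    rw [this, abs_div, abs_of_pos (by positivity : 0 < e ^ 2 * q)]
    calc |M * G * V - m * g * v| / (e ^ 2 * q) ≤ 7 * τ * (m * g * v) / (e ^ 2 * q) := by gcongr
      _ ≤ 7 * τ * (m * g * v) / q := by
          refine div_le_div_of_nonneg_left (by positivity) hq ?_
          have : 1 ≤ e ^ 2 := one_le_pow₀ he
          nlinarith
  have p5 : (η * (M / e * (G / e)) + C * (M / e + G / e)) * V / q ≤ (8 * η + 8 * C * τ) * (m * g * v) / q := by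
    have Me : M / e ≤ M := div_le_self M0 he
    have Ge : G / e ≤ G := div_le_self G0 he
    have Me0 : 0 ≤ M / e := by positivity
    have Ge0 : 0 ≤ G / e := by positivity
    refine div_le_div_of_nonneg_right ?_ hq.le
    calc (η * (M / e * (G / e)) + C * (M / e + G / e)) * V ≤ (η * (M * G) + C * (M + G)) * V := by gcongr
      _ ≤ (η * (2 * m * (2 * g)) + C * (2 * m + 2 * g)) * (2 * v) := by gcongr
      _ = 8 * η * (m * g * v) + 4 * C * ((m * v) + (g * v)) := by ring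
      _ ≤ 8 * η * (m * g * v) + 4 * C * (τ * (m * g * v) + τ * (m * g * v)) := by
          have q1 : m * v ≤ τ * (m * g * v) := by
            have : 0 < m * v := by positivity
            nlinarith
          have q2 : g * v ≤ τ * (m * g * v) := by
            have : 0 < g * v := by positivity
            nlinarith
          gcongr
      _ = (8 * η + 8 * C * τ) * (m * g * v) := by ring
  calc |card - m / e * (g / e) * v / q| ≤ |card - M / e * (G / e) * V / q| +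
        |M / e * (G / e) * V / q - m / e * (g / e) * v / q| := abs_sub_le _ _ _
    _ ≤ ((8 * η + 8 * C * τ) * (m * g * v) / q + X) + 7 * τ * (m * g * v) / q := by
        refine add_le_add (h.trans ?_) p4
        linarith
    _ = (8 * η + (8 * C + 7) * τ) * (m * g * v) / q + X := by ring

/-- the sum over the pairs -/
theorem EQE_W {a₀ a₁ A₀ A₁ : ℝ} (h0 : 0 < a₀) (h1 : 0 < a₁) (hA0 : 0 ≤ A₀) (hA1 : 0 ≤ A₁) {W : Finset (ℕ × ℕ)}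
    (hW : ∀ p ∈ W, a₀ ≤ p.1 ∧ (p.1 : ℝ) ≤ A₀ ∧ a₁ ≤ p.2 ∧ (p.2 : ℝ) ≤ A₁ ∧ 1 ≤ p.1 ∧ 1 ≤ p.2) :
    ∑ p ∈ W, 1 / ((p.1 : ℝ) ^ 3 * p.2) ≤ A₀ * A₁ / (a₀ ^ 3 * a₁) := by
  have hcard : (W.card : ℝ) ≤ A₀ * A₁ := by
    have hsub : W ⊆ Finset.Icc 1 ⌊A₀⌋₊ ×ˢ Finset.Icc 1 ⌊A₁⌋₊ := by
      intro p hp
      obtain ⟨-, q2, -, q4, q5, q6⟩ := hW p hp
      rw [Finset.mem_product, Finset.mem_Icc, Finset.mem_Icc]
      exact ⟨⟨q5, Nat.le_floor q2⟩, ⟨q6, Nat.le_floor q4⟩⟩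
    have hc := Finset.card_le_card hsub
    rw [Finset.card_product, Nat.card_Icc, Nat.card_Icc, Nat.add_sub_cancel, Nat.add_sub_cancel] at hc
    calc (W.card : ℝ) ≤ ((⌊A₀⌋₊ * ⌊A₁⌋₊ : ℕ) : ℝ) := by exact_mod_cast hc
      _ = (⌊A₀⌋₊ : ℝ) * ⌊A₁⌋₊ := by push_cast; rfl
      _ ≤ A₀ * A₁ := mul_le_mul (Nat.floor_le hA0) (Nat.floor_le hA1) (by positivity) hA0
  have hterm : ∀ p ∈ W, 1 / ((p.1 : ℝ) ^ 3 * p.2) ≤ 1 / (a₀ ^ 3 * a₁) := by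
    intro p hp
    obtain ⟨q1, -, q3, -, -, -⟩ := hW p hp
    refine one_div_le_one_div_of_le (by positivity) ?_
    gcongr
  calc ∑ p ∈ W, 1 / ((p.1 : ℝ) ^ 3 * p.2) ≤ W.card • (1 / (a₀ ^ 3 * a₁)) := Finset.sum_le_card_nsmul _ _ _ hterm
    _ = W.card * (1 / (a₀ ^ 3 * a₁)) := by rw [nsmul_eq_mul]
    _ ≤ (A₀ * A₁) * (1 / (a₀ ^ 3 * a₁)) := by gcongr
    _ = A₀ * A₁ / (a₀ ^ 3 * a₁) := by ring

open Classical in
/-- covering by blocks -/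
theorem EQE_cover {ι : Type} {W : Finset (ℕ × ℕ)} {B : Finset ι} (P : ι → ℕ × ℕ → Prop)
    (hP : ∀ p ∈ W, ∃ b ∈ B, P b p) {u : ℕ × ℕ → ℝ} (hu : ∀ p, 0 ≤ u p) {E : ℝ}
    (hE : ∀ b ∈ B, ∀ W' : Finset (ℕ × ℕ), (∀ p ∈ W', p ∈ W ∧ P b p) → ∑ p ∈ W', u p ≤ E) :
    ∑ p ∈ W, u p ≤ B.card * E := by
  calc ∑ p ∈ W, u p ≤ ∑ p ∈ W, ∑ b ∈ B, if P b p then u p else 0 := by
        refine Finset.sum_le_sum fun p hp => ?_
        obtain ⟨b, hb, hPb⟩ := hP p hp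
        have h1 : (if P b p then u p else 0) ≤ ∑ b ∈ B, if P b p then u p else 0 :=
          Finset.single_le_sum (f := fun b => if P b p then u p else 0)
            (fun b _ => by
              by_cases h : P b p
              · simp only [h, if_true]
                exact hu p
              · simp only [h, if_false]
                exact le_rfl) hb
        rw [if_pos hPb] at h1
        exact h1
    _ = ∑ b ∈ B, ∑ p ∈ W, if P b p then u p else 0 := Finset.sum_comm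
    _ = ∑ b ∈ B, ∑ p ∈ W.filter (P b), u p := by
        refine Finset.sum_congr rfl fun b _ => ?_
        rw [Finset.sum_filter]
    _ ≤ B.card • E := Finset.sum_le_card_nsmul _ _ _ fun b hb => hE b hb _ fun p hp => Finset.mem_filter.1 hp
    _ = B.card * E := by rw [nsmul_eq_mul]

/-- one large parameter -/
theorem EQE_ev {δ : ℝ} (hδ : 0 < δ) (X₀ N₁ : ℝ) : ∃ N₀ : ℝ, ∀ N : ℝ, N₀ ≤ N →
    1 ≤ N ∧ N₁ ≤ N ∧ X₀ ≤ N ^ (δ / 4000) := by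
  have h := (tendsto_rpow_atTop (by positivity : 0 < δ / 4000)).eventually_ge_atTop X₀
  obtain ⟨N₂, h2⟩ := Filter.eventually_atTop.1 h
  refine ⟨max 1 (max N₁ N₂), fun N hN => ?_⟩
  have a1 := (le_max_left _ _).trans hN
  have a2 := ((le_max_left _ _).trans (le_max_right _ _)).trans hN
  have a3 := ((le_max_right _ _).trans (le_max_right _ _)).trans hN
  exact ⟨a1, a2, h2 N a3⟩

open Classical in
/-- one block -/
theorem EQE_block {δ : ℝ} (hδ : 0 < δ) {C CB c₀ C₀ R X₀ N₁₀ D4 a₀ a₁ b₀ b₁ : ℝ} (hC : 1 ≤ C)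
    (hCB : 1 ≤ CB) (hR : 1 ≤ R)
    (hNUM : ∀ N Y Y₂ : ℝ, N₁₀ ≤ N → Rng δ N Y Y₂ →
    ∀ N₁ K₁ M G H e y : ℕ, Blk c₀ C₀ N Y Y₂ N₁ K₁ → c₀ * sM N Y Y₂ ≤ M → (M : ℝ) ≤ C₀ * sM N Y Y₂ →
    c₀ * sG N Y Y₂ ≤ G → (G : ℝ) ≤ C₀ * sG N Y Y₂ → 1 ≤ e → (e : ℝ) ≤ N ^ (δ / 4000) → 1 ≤ y → (y : ℝ) ≤ N →
    1 ≤ H → (H : ℝ) ≤ N ^ (δ / 4000) * ((N₁ : ℝ) ^ 3 * K₁ / Y) →
    ∃ a : Fin 4 → ℕ, Sides N₁ K₁ M G H e 1 1 a ∧ (∀ i, (a i : ℝ) ≤ N) ∧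
      √((M : ℝ) * G) * nB N₁ K₁ H y 1 1 e a ≤
        relE δ N Y Y₂ y * ((N₁ : ℝ) ^ 3 * K₁ / Y) * (Y * Y₂) / y)
    (hB : ∀ (T N K M G P e y H : ℕ) (a : Fin 4 → ℕ)
    (W : Finset (ℕ × ℕ)) (r s : ℕ × ℕ → ℕ) (ρ : ℕ × ℕ → ℤ × ℤ × ℤ) (m₀ g₀ r₁ r₂ : ℕ × ℕ → ℤ),
    1 ≤ N → N ≤ T → 1 ≤ K → K ≤ T → 1 ≤ M → M ≤ T → 1 ≤ G → G ≤ T → 1 ≤ H → H ≤ T → 1 ≤ P →
    1 ≤ e → e ≤ T → 1 ≤ y → y ≤ T → (∀ i, a i ≤ T) → Squarefree y →
    Sides N K M G H e 1 1 a → W ⊆ pairs N K y → Resid W 1 1 e r s ρ →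
    ∑ p ∈ W, ∑ h ∈ Finset.Icc 1 H, ‖ESg (m₀ p) (g₀ p) M G P (r₁ p) (r₂ p) (h * (ρ p).1 / ((p.1 ^ 3 * p.2 * e : ℕ) : ℝ))
      (h * (ρ p).2.1 / ((p.1 ^ 3 * p.2 * e : ℕ) : ℝ)) (h * (ρ p).2.2 / ((p.1 ^ 3 * p.2 * e : ℕ) : ℝ)) 0 0‖ ≤
      CB * (T : ℝ) ^ (δ / 8) * √((M : ℝ) * G) * nB N K H y 1 1 e a)
    {N Y Y₂ : ℝ} (hN : 1 ≤ N) (hN1 : N₁₀ ≤ N) (hX1 : X₀ ≤ N ^ (δ / 4000)) (hδ1 : δ ≤ 1 / 10)
    (hS : EQE_Sz δ N Y Y₂) (M G V e' P : ℕ) (he' : 1 ≤ e') (hP : 1 ≤ P)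
    (hM1 : c₀ * sM N Y Y₂ ≤ M) (hM2 : (M : ℝ) ≤ C₀ * sM N Y Y₂) (hG1 : c₀ * sG N Y Y₂ ≤ G)
    (hG2 : (G : ℝ) ≤ C₀ * sG N Y Y₂) (hV1 : D4 * Y / 2 ≤ V) (hV2 : (V : ℝ) ≤ 2 * (D4 * Y)) (hM0 : 1 ≤ M)
    (hG0 : 1 ≤ G) (hV0 : 1 ≤ V)
    (hD4 : 0 < D4) (ha₀ : 0 < a₀) (ha₁ : 0 < a₁) (hb₀ : 0 < b₀) (hb₁ : 0 < b₁) (hc0a : c₀ ≤ a₀) (hc1a : c₀ ≤ a₁)
    (hC0b : 2 * b₀ ≤ C₀) (hC1b : 2 * b₁ ≤ C₀) (hXe : (e' : ℝ) ≤ X₀)
    (hXC : C₀ ≤ X₀) (hXa : 1 ≤ a₀ ^ 3 * a₁ * X₀) (hXR : 4 * R * e' / D4 + 2 ≤ X₀)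
    (hXR2 : (4 * R * e' / D4 + 2) * (16 * b₀ ^ 3 * b₁) ≤ X₀)
    {N₁ K₁ : ℕ} (hn1 : a₀ * sN N Y Y₂ ≤ N₁) (hn2 : (N₁ : ℝ) ≤ 2 * (b₀ * sN N Y Y₂)) (hn0 : 1 ≤ N₁)
    (hk1 : a₁ * sK N Y Y₂ ≤ K₁) (hk2 : (K₁ : ℝ) ≤ 2 * (b₁ * sK N Y Y₂)) (hk0 : 1 ≤ K₁)
    {W : Finset (ℕ × ℕ)} (hW : ∀ p ∈ W, 1 ≤ p.1 ∧ 1 ≤ p.2 ∧ Nat.Coprime p.1 p.2 ∧ Nat.Coprime p.1 (p.2 * e') ∧
      N₁ < 2 * p.1 ∧ p.1 ≤ N₁ ∧ K₁ < 2 * p.2 ∧ p.2 ≤ K₁)
    (ρ : ℕ × ℕ → ℤ × ℤ × ℤ) (hρ : ∀ p ∈ W, ResG p.1 p.2 1 1 1 e' (ρ p).1 (ρ p).2.1 (ρ p).2.2)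
    (m₀ g₀ r₁ r₂ : ℤ) {H : ℕ} (hH : H = ⌈R * ((N₁ : ℝ) ^ 3 * K₁ * e') / V⌉₊) (S : ℕ × ℕ → ℝ)
    (hSd : ∀ p, S p = ∑ h ∈ Finset.Icc 1 (2 * H),
      ‖ESg m₀ g₀ M G P r₁ r₂ (h * (ρ p).1 / ((p.1 ^ 3 * p.2 * e' : ℕ) : ℝ))
      (h * (ρ p).2.1 / ((p.1 ^ 3 * p.2 * e' : ℕ) : ℝ)) (h * (ρ p).2.2 / ((p.1 ^ 3 * p.2 * e' : ℕ) : ℝ)) 0 0‖) :
    ∑ p ∈ W, C * ((V : ℝ) / ((p.1 ^ 3 * p.2 * e' : ℕ) : ℝ)) * S p ≤
      128 * C * D4 * CB / X₀ * (Y * Y₂) := by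
  have hN0 : 0 < N := by linarith
  have hX0 : 0 < X₀ := by
    have : (1 : ℝ) ≤ e' := by exact_mod_cast he'
    linarith
  obtain ⟨sn, hsn⟩ : ∃ x, x = sN N Y Y₂ := ⟨_, rfl⟩
  obtain ⟨sk, hsk⟩ : ∃ x, x = sK N Y Y₂ := ⟨_, rfl⟩
  have Yp := hS.Yp
  have Y2p := hS.Y2p
  have hN01 : X₀ ≤ N ^ (0.1 : ℝ) :=
    hX1.trans (Real.rpow_le_rpow_of_exponent_le hN (by linarith))
  have hN04 : X₀ ≤ N ^ (0.4 : ℝ) :=
    hX1.trans (Real.rpow_le_rpow_of_exponent_le hN (by linarith))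
  have hN06 : N ^ (0.6 : ℝ) * N ^ (0.4 : ℝ) = N := by
    rw [← Real.rpow_add hN0]
    norm_num
  have hsn0 : 0 < sn := by rw [hsn]; exact lt_of_lt_of_le (by positivity) hS.l1
  have hsk0 : 0 < sk := by rw [hsk]; exact lt_of_lt_of_le (by positivity) hS.l2
  have hl6 : X₀ * Y ≤ sn ^ 3 * sk := by
    rw [hsn, hsk]
    refine le_trans ?_ hS.l6
    gcongr
  -- the size of the block
  obtain ⟨Q, hQ⟩ : ∃ Q, Q = (N₁ : ℝ) ^ 3 * K₁ / Y := ⟨_, rfl⟩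
  rw [← hsn] at hn1 hn2
  rw [← hsk] at hk1 hk2
  have hN1p : (0 : ℝ) < N₁ := by exact_mod_cast hn0
  have hK1p : (0 : ℝ) < K₁ := by exact_mod_cast hk0
  have hQ1 : 1 ≤ Q := by
    rw [hQ, le_div_iff₀ Yp, one_mul]
    calc Y ≤ a₀ ^ 3 * a₁ * X₀ * Y := by nlinarith
      _ = a₀ ^ 3 * a₁ * (X₀ * Y) := by ring
      _ ≤ a₀ ^ 3 * a₁ * (sn ^ 3 * sk) := by gcongr
      _ = (a₀ * sn) ^ 3 * (a₁ * sk) := by ring
      _ ≤ (N₁ : ℝ) ^ 3 * K₁ := by gcongr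
  have hQ2 : Q ≤ 16 * b₀ ^ 3 * b₁ * N ^ (0.6 : ℝ) := by
    rw [hQ, div_le_iff₀ Yp]
    calc (N₁ : ℝ) ^ 3 * K₁ ≤ (2 * (b₀ * sn)) ^ 3 * (2 * (b₁ * sk)) := by gcongr
      _ = 16 * b₀ ^ 3 * b₁ * (sn ^ 3 * sk) := by ring
      _ ≤ 16 * b₀ ^ 3 * b₁ * (N ^ (0.6 : ℝ) * Y) := by
          have := hS.u6
          rw [← hsn, ← hsk] at this
          gcongr
      _ = 16 * b₀ ^ 3 * b₁ * N ^ (0.6 : ℝ) * Y := by ring
  have hVp : (0 : ℝ) < V := by exact_mod_cast hV0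
  have he'p : (1 : ℝ) ≤ e' := by exact_mod_cast he'
  have hH1 : 1 ≤ H := by
    rw [hH, Nat.one_le_ceil_iff]
    positivity
  have hH2 : (H : ℝ) ≤ R * ((N₁ : ℝ) ^ 3 * K₁ * e') / V + 1 := by
    rw [hH]
    exact (Nat.ceil_lt_add_one (by positivity)).le
  have hH3 : ((2 * H : ℕ) : ℝ) ≤ (4 * R * e' / D4 + 2) * Q := by
    have h1 : R * ((N₁ : ℝ) ^ 3 * K₁ * e') / V ≤ 2 * R * e' / D4 * Q := by
      have h2 : R * ((N₁ : ℝ) ^ 3 * K₁ * e') / V ≤ R * ((N₁ : ℝ) ^ 3 * K₁ * e') / (D4 * Y / 2) := by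
        gcongr
      refine h2.trans (le_of_eq ?_)
      rw [hQ]
      field_simp
    push_cast
    have h3 : 2 * (H : ℝ) ≤ 2 * (2 * R * e' / D4 * Q + 1) := by linarith
    refine h3.trans ?_
    have : 2 * (2 * R * e' / D4 * Q + 1) = 4 * R * e' / D4 * Q + 2 := by ring
    rw [this]
    nlinarith
  -- application of NUMC
  have hblk : Blk c₀ C₀ N Y Y₂ N₁ K₁ := by
    refine ⟨?_, ?_, ?_, ?_⟩
    · rw [← hsn]; exact le_trans (by gcongr) hn1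
    · rw [← hsn]
      refine hn2.trans ?_
      have := mul_le_mul_of_nonneg_right hC0b hsn0.le
      linarith
    · rw [← hsk]; exact le_trans (by gcongr) hk1
    · rw [← hsk]
      refine hk2.trans ?_
      have := mul_le_mul_of_nonneg_right hC1b hsk0.le
      linarith
  obtain ⟨a, ha1, ha2, ha3⟩ := hNUM N Y Y₂ hN1 hS.rg N₁ K₁ M G (2 * H) e' 1 hblk hM1 hM2 hG1 hG2 he'
    (hXe.trans hX1) le_rfl (by push_cast; exact hN) (by omega) (by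
      rw [← hQ]
      refine hH3.trans ?_
      have : 4 * R * e' / D4 + 2 ≤ N ^ (δ / 4000) := hXR.trans hX1
      gcongr)
  -- T
  obtain ⟨T, hT⟩ : ∃ T : ℕ, T = ⌈N⌉₊ := ⟨_, rfl⟩
  have hT1 : N ≤ T := by rw [hT]; exact Nat.le_ceil N
  have hT2 : (T : ℝ) ≤ 2 * N := by
    rw [hT]
    have := Nat.ceil_lt_add_one hN0.le
    linarith
  have hle : ∀ {x : ℕ}, (x : ℝ) ≤ N → x ≤ T := fun {x} hx => by
    have : (x : ℝ) ≤ T := hx.trans hT1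
    exact_mod_cast this
  have hbig : ∀ {x u : ℝ}, x ≤ X₀ → u ≤ N ^ (0.6 : ℝ) → 0 ≤ u → x * u ≤ N := by
    intro x u hx hu hu0
    calc x * u ≤ N ^ (0.4 : ℝ) * N ^ (0.6 : ℝ) := mul_le_mul (hx.trans hN04) hu hu0 (by positivity)
      _ = N := by rw [mul_comm]; exact hN06
  have hsub : W ⊆ pairs N₁ K₁ 1 := by
    intro p hp
    obtain ⟨w1, w2, w3, -, w5, w6, w7, w8⟩ := hW p hp
    unfold pairs
    rw [Finset.mem_filter, Finset.mem_product, Finset.mem_Icc, Finset.mem_Icc]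
    exact ⟨⟨⟨w1, w6⟩, ⟨w2, w8⟩⟩, w5, w7, w3, one_dvd _⟩
  have hres : Resid W 1 1 e' (fun _ => 1) (fun _ => e') ρ := by
    intro p hp
    obtain ⟨-, -, -, w4, -⟩ := hW p hp
    refine ⟨one_mul _, by rw [mul_one]; exact w4, ?_⟩
    have := hρ p hp
    simpa using this
  have hsum := hB T N₁ K₁ M G P e' 1 (2 * H) a W (fun _ => 1) (fun _ => e') ρ (fun _ => m₀) (fun _ => g₀) (fun _ => r₁)
    (fun _ => r₂) hn0 (hle (by
      refine le_trans ?_ (hbig (x := C₀) (u := sn) hXC (by rw [hsn]; exact hS.u1) hsn0.le)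
      have := mul_le_mul_of_nonneg_right hC0b hsn0.le
      linarith)) hk0 (hle (by
      refine le_trans ?_ (hbig (x := C₀) (u := sk) hXC (by rw [hsk]; exact hS.u2) hsk0.le)
      have := mul_le_mul_of_nonneg_right hC1b hsk0.le
      linarith)) hM0 (hle (hM2.trans (hbig hXC hS.u3 (le_trans (by positivity) hS.l3)))) hG0
    (hle (hG2.trans (hbig hXC hS.u4 (le_trans (by positivity) hS.l4)))) (by omega) (hle (by
      refine hH3.trans ?_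
      have h1 : (4 * R * e' / D4 + 2) * Q ≤ (4 * R * e' / D4 + 2) * (16 * b₀ ^ 3 * b₁ * N ^ (0.6 : ℝ)) := by gcongr
      refine h1.trans ?_
      have h2 := hbig (x := (4 * R * e' / D4 + 2) * (16 * b₀ ^ 3 * b₁)) (u := N ^ (0.6 : ℝ)) hXR2 le_rfl (by positivity)
      refine le_trans (le_of_eq ?_) h2
      ring)) hP he' (hle (by
      have : X₀ ≤ N := hN04.trans (by
        calc N ^ (0.4 : ℝ) ≤ N ^ (1 : ℝ) := Real.rpow_le_rpow_of_exponent_le hN (by norm_num)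
          _ = N := Real.rpow_one N)
      exact hXe.trans this)) le_rfl (hle (by push_cast; exact hN)) (fun i => hle (ha2 i)) squarefree_one ha1 hsub hres
  -- the bound
  have hq : ∀ p ∈ W, (V : ℝ) / ((p.1 ^ 3 * p.2 * e' : ℕ) : ℝ) ≤ 32 * D4 / Q := by
    intro p hp
    obtain ⟨w1, w2, -, -, w5, w6, w7, w8⟩ := hW p hp
    have v1 : (N₁ : ℝ) / 2 ≤ p.1 := by
      have : (N₁ : ℝ) ≤ 2 * p.1 := by exact_mod_cast w5.le
      linarith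
    have v2 : (K₁ : ℝ) / 2 ≤ p.2 := by
      have : (K₁ : ℝ) ≤ 2 * p.2 := by exact_mod_cast w7.le
      linarith
    push_cast
    calc (V : ℝ) / ((p.1 : ℝ) ^ 3 * p.2 * e') ≤ (2 * (D4 * Y)) / (((N₁ : ℝ) / 2) ^ 3 * (K₁ / 2) * 1) := by gcongr
      _ = 32 * D4 / Q := by
          rw [hQ]
          field_simp
          ring
  have hQp : 0 < Q := by linarith
  have hre : (T : ℝ) ^ (δ / 8) * relE δ N Y Y₂ 1 ≤ 4 / X₀ := by
    have h1 : (T : ℝ) ^ (δ / 8) ≤ 2 * N ^ (δ / 8) := by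
      calc (T : ℝ) ^ (δ / 8) ≤ (2 * N) ^ (δ / 8) := Real.rpow_le_rpow (by positivity) hT2 (by positivity)
        _ = 2 ^ (δ / 8) * N ^ (δ / 8) := Real.mul_rpow (by norm_num) hN0.le
        _ ≤ 2 ^ (1 : ℝ) * N ^ (δ / 8) := by
            have : (2 : ℝ) ^ (δ / 8) ≤ 2 ^ (1 : ℝ) := Real.rpow_le_rpow_of_exponent_le (by norm_num) (by linarith)
            gcongr
        _ = 2 * N ^ (δ / 8) := by rw [Real.rpow_one]
    have hre0 : 0 ≤ relE δ N Y Y₂ 1 := by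
      unfold relE
      positivity
    have h2 : N ^ (δ / 8) * N ^ (-(0.9 * δ)) ≤ 1 / X₀ := by
      rw [← Real.rpow_add hN0]
      have h3 : N ^ (δ / 8 + -(0.9 * δ)) ≤ N ^ (-(δ / 4000)) := Real.rpow_le_rpow_of_exponent_le hN (by linarith)
      refine h3.trans ?_
      rw [Real.rpow_neg hN0.le, ← one_div]
      exact one_div_le_one_div_of_le hX0 hX1
    calc (T : ℝ) ^ (δ / 8) * relE δ N Y Y₂ 1 ≤ (2 * N ^ (δ / 8)) * (2 * N ^ (-(0.9 * δ))) :=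
          mul_le_mul h1 hS.re hre0 (by positivity)
      _ = 4 * (N ^ (δ / 8) * N ^ (-(0.9 * δ))) := by ring
      _ ≤ 4 * (1 / X₀) := by gcongr
      _ = 4 / X₀ := by ring
  have ha3' : √((M : ℝ) * G) * nB N₁ K₁ (2 * H) 1 1 1 e' a ≤ relE δ N Y Y₂ 1 * Q * (Y * Y₂) := by
    rw [hQ]
    have := ha3
    simp only [Nat.cast_one, div_one] at this
    exact this
  have hS0 : ∀ p, 0 ≤ S p := fun p => by
    rw [hSd]
    exact Finset.sum_nonneg fun _ _ => norm_nonneg _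
  have hsum' : ∑ p ∈ W, S p ≤ CB * (T : ℝ) ^ (δ / 8) * √((M : ℝ) * G) * nB N₁ K₁ (2 * H) 1 1 1 e' a := by
    refine le_trans (le_of_eq ?_) hsum
    exact Finset.sum_congr rfl fun p _ => hSd p
  calc ∑ p ∈ W, C * ((V : ℝ) / ((p.1 ^ 3 * p.2 * e' : ℕ) : ℝ)) * S p
      ≤ ∑ p ∈ W, C * (32 * D4 / Q) * S p := by
        refine Finset.sum_le_sum fun p hp => ?_
        refine mul_le_mul_of_nonneg_right ?_ (hS0 p)
        exact mul_le_mul_of_nonneg_left (hq p hp) (by linarith)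
    _ = C * (32 * D4 / Q) * ∑ p ∈ W, S p := by
        rw [Finset.mul_sum]
    _ ≤ C * (32 * D4 / Q) * (CB * (T : ℝ) ^ (δ / 8) * √((M : ℝ) * G) * nB N₁ K₁ (2 * H) 1 1 1 e' a) :=
        mul_le_mul_of_nonneg_left hsum' (by positivity)
    _ = C * (32 * D4 / Q) * CB * (T : ℝ) ^ (δ / 8) * (√((M : ℝ) * G) * nB N₁ K₁ (2 * H) 1 1 1 e' a) := by ring
    _ ≤ C * (32 * D4 / Q) * CB * (T : ℝ) ^ (δ / 8) * (relE δ N Y Y₂ 1 * Q * (Y * Y₂)) := by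
        refine mul_le_mul_of_nonneg_left ha3' ?_
        positivity
    _ = 32 * C * D4 * CB * ((T : ℝ) ^ (δ / 8) * relE δ N Y Y₂ 1) * (Y * Y₂) := by
        field_simp
    _ ≤ 32 * C * D4 * CB * (4 / X₀) * (Y * Y₂) := by gcongr
    _ = 128 * C * D4 * CB / X₀ * (Y * Y₂) := by ring

open Classical in
theorem EQE (δ : ℝ) (hδ : 0 < δ) (hδ1 : δ ≤ 1 / 10) (hFIB2 : FIB2_stmt) (hBLE : BLE_stmt) (hNUMC : NUMC_stmt)
    (hEQP : EQP_stmt) (hDYB : DYB_stmt) : EQE_stmt δ := by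
  intro a b ha0 ha1 ha4 hab e c he hcop ε hε
  obtain ⟨D2, hD2⟩ : ∃ x, x = b 2 - a 2 := ⟨_, rfl⟩
  obtain ⟨D3, hD3⟩ : ∃ x, x = b 3 - a 3 := ⟨_, rfl⟩
  obtain ⟨D4, hD4⟩ : ∃ x, x = b 4 - a 4 := ⟨_, rfl⟩
  have D2p : 0 < D2 := by rw [hD2]; linarith [hab 2]
  have D3p : 0 < D3 := by rw [hD3]; linarith [hab 3]
  have D4p : 0 < D4 := by rw [hD4]; linarith [hab 4]
  have hb0 : 0 < b 0 := ha0.trans (hab 0)
  have hb1 : 0 < b 1 := ha1.trans (hab 1)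
  obtain ⟨e', hee⟩ : ∃ x, x = e1 e (c 0).natAbs := ⟨_, rfl⟩
  have he' : 1 ≤ e' := by rw [hee]; exact EQE_e1_pos _ _
  have he'R : (1 : ℝ) ≤ e' := by exact_mod_cast he'
  have heR : (1 : ℝ) ≤ e := by exact_mod_cast he
  obtain ⟨B₁, hB₁⟩ : ∃ x, x = b 0 * b 1 * (D2 * D3 * D4) / (a 0 ^ 3 * a 1) := ⟨_, rfl⟩
  have B₁p : 0 < B₁ := by rw [hB₁]; positivity
  obtain ⟨η, hη⟩ : ∃ x, x = min 1 (ε / (32 * B₁)) := ⟨_, rfl⟩
  have ηp : 0 < η := by rw [hη]; exact lt_min one_pos (by positivity)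
  have hη1 : η ≤ 1 := by rw [hη]; exact min_le_left _ _
  have hη2 : 8 * η * B₁ ≤ ε / 4 := by
    have : η ≤ ε / (32 * B₁) := by rw [hη]; exact min_le_right _ _
    rw [le_div_iff₀ (by positivity)] at this
    linarith
  obtain ⟨R, C, hR, hC, hF2⟩ := hFIB2 η ηp hη1
  obtain ⟨CB, hCB, hB⟩ := hBLE (δ / 8) (by positivity)
  obtain ⟨c₀, hc₀⟩ : ∃ x, x = min (min (a 0) (a 1)) (min (D2 / 2) (D3 / 2)) := ⟨_, rfl⟩
  have c₀p : 0 < c₀ := by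
    rw [hc₀]
    exact lt_min (lt_min ha0 ha1) (lt_min (by positivity) (by positivity))
  have hc0a : c₀ ≤ a 0 := by rw [hc₀]; exact (min_le_left _ _).trans (min_le_left _ _)
  have hc1a : c₀ ≤ a 1 := by rw [hc₀]; exact (min_le_left _ _).trans (min_le_right _ _)
  have hc2 : c₀ ≤ D2 / 2 := by rw [hc₀]; exact (min_le_right _ _).trans (min_le_left _ _)
  have hc3 : c₀ ≤ D3 / 2 := by rw [hc₀]; exact (min_le_right _ _).trans (min_le_right _ _)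
  obtain ⟨C₀, hC₀⟩ : ∃ x, x = 1 + 2 * b 0 + 2 * b 1 + 2 * D2 + 2 * D3 := ⟨_, rfl⟩
  have hC₀1 : 1 ≤ C₀ := by rw [hC₀]; linarith
  obtain ⟨N₁₀, hNUM⟩ := hNUMC δ c₀ C₀ hδ hδ1 c₀p hC₀1
  have hlog0 : 0 ≤ Real.log (b 0 / a 0) := Real.log_nonneg (by rw [le_div_iff₀ ha0]; linarith [hab 0])
  have hlog1 : 0 ≤ Real.log (b 1 / a 1) := Real.log_nonneg (by rw [le_div_iff₀ ha1]; linarith [hab 1])
  obtain ⟨B₂, hB₂⟩ : ∃ x, x = (2 + 2 * Real.log (b 0 / a 0)) * (2 + 2 * Real.log (b 1 / a 1)) := ⟨_, rfl⟩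
  have B₂p : 0 < B₂ := by rw [hB₂]; positivity
  obtain ⟨τ, hτ⟩ : ∃ x, x = min 1 (ε / (4 * ((8 * C + 7) * B₁))) := ⟨_, rfl⟩
  have τp : 0 < τ := by rw [hτ]; exact lt_min one_pos (by positivity)
  have hτ1 : τ ≤ 1 := by rw [hτ]; exact min_le_left _ _
  have hτ2 : (8 * C + 7) * τ * B₁ ≤ ε / 4 := by
    have : τ ≤ ε / (4 * ((8 * C + 7) * B₁)) := by rw [hτ]; exact min_le_right _ _
    rw [le_div_iff₀ (by positivity)] at this
    linarith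
  obtain ⟨X₀, hX₀⟩ : ∃ x, x = 1 / a 0 + 1 / a 1 + (1 / τ + e + 2) / D2 + (1 / τ + e + 2) / D3 + (1 / τ + 2) / D4 +
      (1 + 8 * D4) / (a 0 ^ 3 * a 1) + (4 * R * e' / D4 + 2) + (4 * R * e' / D4 + 2) * (16 * b 0 ^ 3 * b 1) +
      C₀ + e' + 256 * B₂ * C * D4 * CB / ε := ⟨_, rfl⟩
  have t1 : 0 < 1 / a 0 := by positivity
  have t2 : 0 < 1 / a 1 := by positivity
  have t3 : 0 < (1 / τ + e + 2) / D2 := by positivity
  have t4 : 0 < (1 / τ + e + 2) / D3 := by positivity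
  have t5 : 0 < (1 / τ + 2) / D4 := by positivity
  have t6 : 0 < (1 + 8 * D4) / (a 0 ^ 3 * a 1) := by positivity
  have t7 : 0 < 4 * R * e' / D4 + 2 := by positivity
  have t8 : 0 < (4 * R * e' / D4 + 2) * (16 * b 0 ^ 3 * b 1) := by positivity
  have t9 : 0 < 256 * B₂ * C * D4 * CB / ε := by positivity
  have X1 : 1 ≤ X₀ := by rw [hX₀]; linarith
  have X2 : 1 ≤ a 0 * X₀ := by
    have : 1 / a 0 ≤ X₀ := by rw [hX₀]; linarith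
    rw [div_le_iff₀ ha0] at this
    linarith
  have X3 : 1 ≤ a 1 * X₀ := by
    have : 1 / a 1 ≤ X₀ := by rw [hX₀]; linarith
    rw [div_le_iff₀ ha1] at this
    linarith
  have X4 : 1 / τ + e + 2 ≤ D2 * X₀ := by
    have : (1 / τ + e + 2) / D2 ≤ X₀ := by rw [hX₀]; linarith
    rw [div_le_iff₀ D2p] at this
    linarith
  have X5 : 1 / τ + e + 2 ≤ D3 * X₀ := by
    have : (1 / τ + e + 2) / D3 ≤ X₀ := by rw [hX₀]; linarith
    rw [div_le_iff₀ D3p] at this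
    linarith
  have X6 : 1 / τ + 2 ≤ D4 * X₀ := by
    have : (1 / τ + 2) / D4 ≤ X₀ := by rw [hX₀]; linarith
    rw [div_le_iff₀ D4p] at this
    linarith
  have X7 : 1 + 8 * D4 ≤ a 0 ^ 3 * a 1 * X₀ := by
    have : (1 + 8 * D4) / (a 0 ^ 3 * a 1) ≤ X₀ := by rw [hX₀]; linarith
    rw [div_le_iff₀ (by positivity)] at this
    linarith
  have X8 : 4 * R * e' / D4 + 2 ≤ X₀ := by rw [hX₀]; linarith
  have X9 : (4 * R * e' / D4 + 2) * (16 * b 0 ^ 3 * b 1) ≤ X₀ := by rw [hX₀]; linarith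
  have X10 : C₀ ≤ X₀ := by rw [hX₀]; linarith
  have X11 : (e' : ℝ) ≤ X₀ := by rw [hX₀]; linarith
  have X12 : B₂ * (128 * C * D4 * CB / X₀) ≤ ε / 2 := by
    have h1 : 256 * B₂ * C * D4 * CB / ε ≤ X₀ := by rw [hX₀]; linarith
    rw [div_le_iff₀ hε] at h1
    rw [← mul_div_assoc, div_le_iff₀ (by linarith)]
    linarith
  obtain ⟨N₀, hN₀⟩ := EQE_ev hδ X₀ N₁₀
  refine ⟨N₀, fun N Y hN hY1 hY2 F W hFm hWm => ?_⟩
  obtain ⟨hN1, hN2, hN3⟩ := hN₀ N hN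
  obtain ⟨Y₂, hY₂⟩ : ∃ x, x = N ^ (1 / 2 + δ / 100) := ⟨_, rfl⟩
  have hS : EQE_Sz δ N Y Y₂ := by rw [hY₂]; exact EQE_sz hδ hδ1 hN1 hY1 hY2
  rw [← hY₂] at hFm hWm ⊢
  have Yp := hS.Yp
  have Y2p := hS.Y2p
  have hN01 : X₀ ≤ N ^ (0.1 : ℝ) :=
    hN3.trans (Real.rpow_le_rpow_of_exponent_le hN1 (by linarith))
  obtain ⟨sn, hsn⟩ : ∃ x, x = sN N Y Y₂ := ⟨_, rfl⟩
  obtain ⟨sk, hsk⟩ : ∃ x, x = sK N Y Y₂ := ⟨_, rfl⟩
  obtain ⟨sm, hsm⟩ : ∃ x, x = sM N Y Y₂ := ⟨_, rfl⟩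
  obtain ⟨sg, hsg⟩ : ∃ x, x = sG N Y Y₂ := ⟨_, rfl⟩
  have sn1 : X₀ ≤ sn := by rw [hsn]; exact hN01.trans hS.l1
  have sk1 : X₀ ≤ sk := by rw [hsk]; exact hN01.trans hS.l2
  have sm1 : X₀ ≤ sm := by rw [hsm]; exact hN01.trans hS.l3
  have sg1 : X₀ ≤ sg := by rw [hsg]; exact hN01.trans hS.l4
  have Y1 : X₀ ≤ Y := hN01.trans hS.l5
  have X0p : 0 < X₀ := by linarith
  have snp : 0 < sn := by linarith
  have skp : 0 < sk := by linarith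
  have smp : 0 < sm := by linarith
  have sgp : 0 < sg := by linarith
  have hl6 : X₀ * Y ≤ sn ^ 3 * sk := by
    rw [hsn, hsk]
    refine le_trans ?_ hS.l6
    gcongr
  have hEq : sm * sg = Y₂ * sn ^ 2 := by rw [hsm, hsg, hsn]; exact hS.eq
  rw [← hsn, ← hsk] at hWm
  -- intervals
  obtain ⟨m₀, M, hM, hMi⟩ := EQE_int (x := a 2 * sm) (y := b 2 * sm) (by
    have := hab 2
    gcongr)
  obtain ⟨g₀, G, hG, hGi⟩ := EQE_int (x := a 3 * sg) (y := b 3 * sg) (by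
    have := hab 3
    gcongr)
  obtain ⟨z₀, V, hV, hVi⟩ := EQE_int (x := a 4 * Y) (y := b 4 * Y) (by
    have := hab 4
    gcongr)
  have hM' : |(M : ℝ) - D2 * sm| ≤ 1 := by rw [hD2, sub_mul]; exact hM
  have hG' : |(G : ℝ) - D3 * sg| ≤ 1 := by rw [hD3, sub_mul]; exact hG
  have hV' : |(V : ℝ) - D4 * Y| ≤ 1 := by rw [hD4, sub_mul]; exact hV
  have hMb := abs_le.1 hM'
  have hGb := abs_le.1 hG'
  have hVb := abs_le.1 hV'
  have m1 : 1 / τ + e + 2 ≤ D2 * sm := X4.trans (by gcongr)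
  have g1 : 1 / τ + e + 2 ≤ D3 * sg := X5.trans (by gcongr)
  have v1 : 1 / τ + 2 ≤ D4 * Y := X6.trans (by gcongr)
  have hτi : 0 < 1 / τ := by positivity
  have hPM : e ≤ M := by
    have : (e : ℝ) ≤ M := by linarith [hMb.1]
    exact_mod_cast this
  have hPG : e ≤ G := by
    have : (e : ℝ) ≤ G := by linarith [hGb.1]
    exact_mod_cast this
  have hV1 : 1 ≤ V := by
    have : (1 : ℝ) ≤ V := by linarith [hVb.1]
    exact_mod_cast this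
  have τm : 1 ≤ τ * (D2 * sm) := by
    have h : 1 / τ ≤ D2 * sm := by linarith
    rwa [div_le_iff₀ τp, mul_comm] at h
  have τg : 1 ≤ τ * (D3 * sg) := by
    have h : 1 / τ ≤ D3 * sg := by linarith
    rwa [div_le_iff₀ τp, mul_comm] at h
  have τv : 1 ≤ τ * (D4 * Y) := by
    have h : 1 / τ ≤ D4 * Y := by linarith
    rwa [div_le_iff₀ τp, mul_comm] at h
  have hMlow : c₀ * sm ≤ M := by
    have := mul_le_mul_of_nonneg_right hc2 smp.le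
    linarith [hMb.1]
  have hGlow : c₀ * sg ≤ G := by
    have := mul_le_mul_of_nonneg_right hc3 sgp.le
    linarith [hGb.1]
  have hMup : (M : ℝ) ≤ C₀ * sm := by
    have h1 : C₀ * sm = sm + 2 * (b 0 * sm) + 2 * (b 1 * sm) + 2 * (D2 * sm) + 2 * (D3 * sm) := by
      rw [hC₀]; ring
    rw [h1]
    linarith [hMb.2, mul_pos hb0 smp, mul_pos hb1 smp, mul_pos D3p smp]
  have hGup : (G : ℝ) ≤ C₀ * sg := by
    have h1 : C₀ * sg = sg + 2 * (b 0 * sg) + 2 * (b 1 * sg) + 2 * (D2 * sg) + 2 * (D3 * sg) := by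
      rw [hC₀]; ring
    rw [h1]
    linarith [hGb.2, mul_pos hb0 sgp, mul_pos hb1 sgp, mul_pos D2p sgp]
  have hC0b : 2 * b 0 ≤ C₀ := by rw [hC₀]; linarith
  have hC1b : 2 * b 1 ≤ C₀ := by rw [hC₀]; linarith
  have hX7' : 1 ≤ a 0 ^ 3 * a 1 * X₀ := by linarith
  have hVlow : D4 * Y / 2 ≤ V := by linarith [hVb.1]
  have hVup : (V : ℝ) ≤ 2 * (D4 * Y) := by linarith [hVb.2]
  -- residues
  have hres : ∀ p : ℕ × ℕ, ∃ (ρ : ℤ × ℤ × ℤ) (cc : ℤ), p ∈ W → ResG p.1 p.2 1 1 1 e' ρ.1 ρ.2.1 ρ.2.2 ∧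
      (F.filter (fun t => t.1 = p)).card =
        (fibG m₀ g₀ z₀ M G V e (p.1 ^ 3 * p.2 * e') (c 2) (c 3) ρ.1 ρ.2.1 ρ.2.2 cc).card := by
    intro p
    by_cases hp : p ∈ W
    swap
    · exact ⟨(0, 0, 0), 0, fun h => absurd h hp⟩
    obtain ⟨w1, w2, w3, w4, w5, w6, w7⟩ := (hWm p).1 hp
    have hn1 : 1 ≤ p.1 := by
      have : (0 : ℝ) < p.1 := lt_trans (by positivity) w1
      exact_mod_cast this
    have hk1 : 1 ≤ p.2 := by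
      have : (0 : ℝ) < p.2 := lt_trans (by positivity) w3
      exact_mod_cast this
    have hep : e1 e p.1 = e' := by rw [hee]; exact EQE_e1_class w6
    have hcp : Nat.Coprime p.1 (p.2 * e') := by
      rw [← hep]
      exact Nat.Coprime.mul_right w5 (EQE_e1_coprime _ _)
    obtain ⟨α, β, γ, cc, h1, h2⟩ := hEQP e e' p.1 p.2 (c 2) (c 3) (c 4) m₀ g₀ z₀ M G V hn1 hk1 he' hcp
    refine ⟨(α, β, γ), cc, fun _ => ⟨h1, h2 _ fun t => ?_⟩⟩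
    rw [Finset.mem_filter, hFm t]
    constructor
    · rintro ⟨hc, ht⟩
      obtain ⟨i1, i2⟩ := (hMi t.2.1).1 ⟨by rw [hsm]; exact hc.m1, by rw [hsm]; exact hc.m2⟩
      obtain ⟨i3, i4⟩ := (hGi t.2.2.1).1 ⟨by rw [hsg]; exact hc.g1, by rw [hsg]; exact hc.g2⟩
      obtain ⟨i5, i6⟩ := (hVi t.2.2.2).1 ⟨hc.z1, hc.z2⟩
      refine ⟨hc.tt, ht, i1, i2, i3, i4, i5, i6, hc.cm, hc.cg, ?_⟩
      have := hc.cR
      rw [ht, hep] at this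
      exact this
    · rintro ⟨hT, ht, i1, i2, i3, i4, i5, i6, hcm, hcg, hcR⟩
      have ht' : t.1 = p := ht
      refine ⟨?_, ht'⟩
      obtain ⟨j1, j2⟩ := (hMi t.2.1).2 ⟨i1, i2⟩
      obtain ⟨j3, j4⟩ := (hGi t.2.2.1).2 ⟨i3, i4⟩
      obtain ⟨j5, j6⟩ := (hVi t.2.2.2).2 ⟨i5, i6⟩
      refine ⟨hT, ?_, ?_, ?_, ?_, ?_, ?_, ?_, ?_, j5, j6, ?_, ?_, hcm, hcg, ?_⟩
      · rw [ht', ← hsn]; exact w1
      · rw [ht', ← hsn]; exact w2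
      · rw [ht', ← hsk]; exact w3
      · rw [ht', ← hsk]; exact w4
      · rw [← hsm]; exact j1
      · rw [← hsm]; exact j2
      · rw [← hsg]; exact j3
      · rw [← hsg]; exact j4
      · rw [ht']; exact w6
      · rw [ht']; exact w7
      · rw [ht', hep]; exact hcR
  choose ρ cc hρ using hres
  -- facts on W
  have hWf : ∀ p ∈ W, a 0 * sn ≤ p.1 ∧ (p.1 : ℝ) ≤ b 0 * sn ∧ a 1 * sk ≤ p.2 ∧ (p.2 : ℝ) ≤ b 1 * sk ∧ 1 ≤ p.1 ∧
      1 ≤ p.2 ∧ Nat.Coprime p.1 p.2 ∧ Nat.Coprime p.1 (p.2 * e') := by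
    intro p hp
    obtain ⟨w1, w2, w3, w4, w5, w6, w7⟩ := (hWm p).1 hp
    have hn1 : 1 ≤ p.1 := by
      have : (0 : ℝ) < p.1 := lt_trans (by positivity) w1
      exact_mod_cast this
    have hk1 : 1 ≤ p.2 := by
      have : (0 : ℝ) < p.2 := lt_trans (by positivity) w3
      exact_mod_cast this
    have hep : e1 e p.1 = e' := by rw [hee]; exact EQE_e1_class w6
    refine ⟨w1.le, w2, w3.le, w4, hn1, hk1, w5, ?_⟩
    rw [← hep]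
    exact Nat.Coprime.mul_right w5 (EQE_e1_coprime _ _)
  -- the main terms
  obtain ⟨κ₀, hκ₀⟩ : ∃ x, x = 8 * η + (8 * C + 7) * τ := ⟨_, rfl⟩
  have κ₀p : 0 ≤ κ₀ := by rw [hκ₀]; positivity
  obtain ⟨P, hP⟩ : ∃ x, x = (D2 * sm) * (D3 * sg) * (D4 * Y) := ⟨_, rfl⟩
  have Pp : 0 < P := by rw [hP]; positivity
  have hWsum := EQE_W (a₀ := a 0 * sn) (a₁ := a 1 * sk) (A₀ := b 0 * sn) (A₁ := b 1 * sk) (by positivity) (by positivity)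
    (by positivity) (by positivity) (W := W) (fun p hp => by
      obtain ⟨w1, w2, w3, w4, w5, w6, -, -⟩ := hWf p hp
      exact ⟨w1, w2, w3, w4, w5, w6⟩)
  have hgsum : ∑ p ∈ W, κ₀ * P / ((p.1 : ℝ) ^ 3 * p.2) ≤ ε / 2 * (Y * Y₂) := by
    have h1 : ∑ p ∈ W, κ₀ * P / ((p.1 : ℝ) ^ 3 * p.2) = κ₀ * P * ∑ p ∈ W, 1 / ((p.1 : ℝ) ^ 3 * p.2) := by
      rw [Finset.mul_sum]
      exact Finset.sum_congr rfl fun p _ => by ring
    rw [h1]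
    calc κ₀ * P * ∑ p ∈ W, 1 / ((p.1 : ℝ) ^ 3 * p.2)
        ≤ κ₀ * P * (b 0 * sn * (b 1 * sk) / ((a 0 * sn) ^ 3 * (a 1 * sk))) := by gcongr
      _ = κ₀ * (D2 * D3 * D4 * (b 0 * b 1) / (a 0 ^ 3 * a 1)) * Y * (sm * sg / sn ^ 2) := by
          rw [hP]
          field_simp
      _ = κ₀ * B₁ * (Y * Y₂) := by
          rw [hEq, hB₁]
          field_simp
      _ ≤ ε / 2 * (Y * Y₂) := by
          refine mul_le_mul_of_nonneg_right ?_ (by positivity)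
          rw [hκ₀]
          linarith
  -- the estimate for one pair
  obtain ⟨S, hSd⟩ : ∃ S : ℕ × ℕ → ℝ, S = fun p => |((F.filter (fun t => t.1 = p)).card : ℝ) -
      ((b 2 - a 2) * sM N Y Y₂ / e) * ((b 3 - a 3) * sG N Y Y₂ / e) * ((b 4 - a 4) * Y) /
        ((p.1 : ℝ) ^ 3 * p.2 * (e1 e (c 0).natAbs : ℝ))| := ⟨_, rfl⟩
  have hgoal : ∑ p ∈ W, S p ≤ ε * (Y * Y₂) := by
    -- exponential sums
    obtain ⟨Hf, hHf⟩ : ∃ Hf : ℕ × ℕ → ℕ, Hf = fun b => ⌈R * ((b.1 : ℝ) ^ 3 * b.2 * e') / V⌉₊ := ⟨_, rfl⟩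
    obtain ⟨Es, hEs⟩ : ∃ Es : ℕ × ℕ → ℕ × ℕ → ℝ, Es = fun b p => ∑ h ∈ Finset.Icc 1 (2 * Hf b),
      ‖ESg m₀ g₀ M G e (c 2) (c 3) (h * (ρ p).1 / ((p.1 ^ 3 * p.2 * e' : ℕ) : ℝ))
      (h * (ρ p).2.1 / ((p.1 ^ 3 * p.2 * e' : ℕ) : ℝ)) (h * (ρ p).2.2 / ((p.1 ^ 3 * p.2 * e' : ℕ) : ℝ)) 0 0‖ :=
      ⟨_, rfl⟩
    have hVp : (0 : ℝ) < V := by exact_mod_cast hV1
    have hone : ∀ p ∈ W, ∀ b : ℕ × ℕ, p.1 ≤ b.1 → p.2 ≤ b.2 →
        S p - κ₀ * P / ((p.1 : ℝ) ^ 3 * p.2) ≤ C * ((V : ℝ) / ((p.1 ^ 3 * p.2 * e' : ℕ) : ℝ)) * Es b p := by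
      intro p hp b hb1 hb2
      obtain ⟨w1, w2, w3, w4, w5, w6, w7, w8⟩ := hWf p hp
      obtain ⟨q, hq⟩ : ∃ q : ℕ, q = p.1 ^ 3 * p.2 * e' := ⟨_, rfl⟩
      have hqR : (q : ℝ) = (p.1 : ℝ) ^ 3 * p.2 * e' := by rw [hq]; push_cast; rfl
      have p1p : (0 : ℝ) < p.1 := by exact_mod_cast w5
      have p2p : (0 : ℝ) < p.2 := by exact_mod_cast w6
      have q1 : (p.1 : ℝ) ^ 3 * p.2 ≤ q := by
        rw [hqR]
        exact le_mul_of_one_le_right (by positivity) he'R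
      have q0 : (0 : ℝ) < q := lt_of_lt_of_le (by positivity) q1
      have q4 : 4 * V ≤ q := by
        have h1 : (4 : ℝ) * V ≤ q := by
          calc (4 : ℝ) * V ≤ 8 * D4 * Y := by linarith
            _ ≤ a 0 ^ 3 * a 1 * X₀ * Y := by
                refine mul_le_mul_of_nonneg_right ?_ Yp.le
                linarith
            _ = a 0 ^ 3 * a 1 * (X₀ * Y) := by ring
            _ ≤ a 0 ^ 3 * a 1 * (sn ^ 3 * sk) := by gcongr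
            _ = (a 0 * sn) ^ 3 * (a 1 * sk) := by ring
            _ ≤ (p.1 : ℝ) ^ 3 * p.2 := by gcongr
            _ ≤ q := q1
        exact_mod_cast h1
      have hRq : R * q ≤ (Hf b : ℝ) * V := by
        have h1 : R * ((b.1 : ℝ) ^ 3 * b.2 * e') / V ≤ Hf b := by
          rw [hHf]
          exact Nat.le_ceil _
        rw [div_le_iff₀ hVp] at h1
        refine le_trans ?_ h1
        rw [hqR]
        have hb1' : (p.1 : ℝ) ≤ b.1 := by exact_mod_cast hb1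
        have hb2' : (p.2 : ℝ) ≤ b.2 := by exact_mod_cast hb2
        gcongr
      have hfib := hF2 m₀ g₀ z₀ M G V e q (Hf b) (c 2) (c 3) (ρ p).1 (ρ p).2.1 (ρ p).2.2 (cc p) he hPM hPG hV1 q4 hRq
      have hcard := (hρ p hp).2
      rw [← hq] at hcard
      rw [← hcard] at hfib
      have hmain := EQE_main ηp.le (by linarith : (0 : ℝ) ≤ C) τp.le hτ1 (m := D2 * sm) (g := D3 * sg) (v := D4 * Y)
        τm τg τv hM' hG' hV' (mul_pos D2p smp) (mul_pos D3p sgp) (mul_pos D4p Yp) heR q0 hfib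
      have hSp : S p = |((F.filter (fun t => t.1 = p)).card : ℝ) - D2 * sm / e * (D3 * sg / e) * (D4 * Y) / q| := by
        rw [hSd, hqR, ← hD2, ← hD3, ← hD4, ← hsm, ← hsg, ← hee]
      rw [← hSp, ← hκ₀, ← hP] at hmain
      have hle : κ₀ * P / q ≤ κ₀ * P / ((p.1 : ℝ) ^ 3 * p.2) :=
        div_le_div_of_nonneg_left (by positivity) (by positivity) q1
      have hE : Es b p = ∑ h ∈ Finset.Icc 1 (2 * Hf b), ‖ESg m₀ g₀ M G e (c 2) (c 3) (h * (ρ p).1 / (q : ℝ))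
          (h * (ρ p).2.1 / (q : ℝ)) (h * (ρ p).2.2 / (q : ℝ)) 0 0‖ := by
        rw [hEs, hq]
      rw [← hE] at hmain
      rw [← hq]
      calc S p - κ₀ * P / ((p.1 : ℝ) ^ 3 * p.2) ≤ S p - κ₀ * P / q := sub_le_sub_left hle _
        _ ≤ C * ((V : ℝ) / q) * Es b p := by
            rw [sub_le_iff_le_add']
            exact hmain
    -- blocks
    obtain ⟨I, hI1, hI2, hI3⟩ := hDYB (a 0 * sn) (b 0 * sn) (X2.trans (by gcongr)) (by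
      have := hab 0
      gcongr)
    obtain ⟨J, hJ1, hJ2, hJ3⟩ := hDYB (a 1 * sk) (b 1 * sk) (X3.trans (by gcongr)) (by
      have := hab 1
      gcongr)
    have hcov := EQE_cover (W := W) (B := I ×ˢ J)
      (fun b p => b.1 < 2 * p.1 ∧ p.1 ≤ b.1 ∧ b.2 < 2 * p.2 ∧ p.2 ≤ b.2) (fun p hp => by
        obtain ⟨w1, w2, w3, w4, -⟩ := hWf p hp
        obtain ⟨n₁, hn₁, hn₂⟩ := hI3 p.1 w1 w2
        obtain ⟨k₁, hk₁, hk₂⟩ := hJ3 p.2 w3 w4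
        exact ⟨(n₁, k₁), Finset.mem_product.2 ⟨hn₁, hk₁⟩, hn₂.1, hn₂.2, hk₂.1, hk₂.2⟩)
      (u := fun p => max (S p - κ₀ * P / ((p.1 : ℝ) ^ 3 * p.2)) 0) (fun p => le_max_right _ _)
      (E := 128 * C * D4 * CB / X₀ * (Y * Y₂)) (fun b hb W' hW' => by
        obtain ⟨hbI, hbJ⟩ := Finset.mem_product.1 hb
        obtain ⟨i1, i2, i3⟩ := hI2 b.1 hbI
        obtain ⟨j1, j2, j3⟩ := hJ2 b.2 hbJ
        have hblock := EQE_block hδ hC hCB hR hNUM hB hN1 hN2 hN3 hδ1 hS M G V e' e he' he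
          (by rw [← hsm]; exact hMlow) (by rw [← hsm]; exact hMup)
          (by rw [← hsg]; exact hGlow) (by rw [← hsg]; exact hGup)
          hVlow hVup (he.trans hPM) (he.trans hPG) hV1 D4p ha0 ha1 hb0 hb1 hc0a hc1a
          hC0b hC1b X11 X10 hX7' X8 X9
          (N₁ := b.1) (K₁ := b.2) (by rw [← hsn]; exact i2) (by rw [← hsn]; exact i3) i1
          (by rw [← hsk]; exact j2) (by rw [← hsk]; exact j3) j1
          (W := W') (fun p hp => by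
            obtain ⟨hp1, hp2, hp3, hp4, hp5⟩ := hW' p hp
            obtain ⟨-, -, -, -, w5, w6, w7, w8⟩ := hWf p hp1
            exact ⟨w5, w6, w7, w8, hp2, hp3, hp4, hp5⟩) ρ (fun p hp => (hρ p (hW' p hp).1).1)
          m₀ g₀ (c 2) (c 3) (H := Hf b) (by rw [hHf]) (Es b) (fun p => by rw [hEs])
        refine le_trans (Finset.sum_le_sum fun p hp => ?_) hblock
        obtain ⟨hp1, -, hp3, -, hp5⟩ := hW' p hp
        refine max_le (hone p hp1 b hp3 hp5) ?_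
        have : 0 ≤ Es b p := by
          rw [hEs]
          exact Finset.sum_nonneg fun _ _ => norm_nonneg _
        positivity)
    have hcardB : (((I ×ˢ J).card : ℕ) : ℝ) ≤ B₂ := by
      rw [Finset.card_product]
      push_cast
      rw [hB₂]
      have e0 : b 0 * sn / (a 0 * sn) = b 0 / a 0 := mul_div_mul_right _ _ snp.ne'
      have e1 : b 1 * sk / (a 1 * sk) = b 1 / a 1 := mul_div_mul_right _ _ skp.ne'
      rw [e0] at hI1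
      rw [e1] at hJ1
      exact mul_le_mul hI1 hJ1 (by positivity) (by positivity)
    have hfin : (((I ×ˢ J).card : ℕ) : ℝ) * (128 * C * D4 * CB / X₀ * (Y * Y₂)) ≤ ε / 2 * (Y * Y₂) := by
      calc (((I ×ˢ J).card : ℕ) : ℝ) * (128 * C * D4 * CB / X₀ * (Y * Y₂))
          ≤ B₂ * (128 * C * D4 * CB / X₀ * (Y * Y₂)) := by gcongr
        _ = B₂ * (128 * C * D4 * CB / X₀) * (Y * Y₂) := by ring
        _ ≤ ε / 2 * (Y * Y₂) := by gcongr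
    calc ∑ p ∈ W, S p ≤ ∑ p ∈ W, (κ₀ * P / ((p.1 : ℝ) ^ 3 * p.2) + max (S p - κ₀ * P / ((p.1 : ℝ) ^ 3 * p.2)) 0) := by
          refine Finset.sum_le_sum fun p _ => ?_
          have := le_max_left (S p - κ₀ * P / ((p.1 : ℝ) ^ 3 * p.2)) 0
          linarith
      _ = ∑ p ∈ W, κ₀ * P / ((p.1 : ℝ) ^ 3 * p.2) + ∑ p ∈ W, max (S p - κ₀ * P / ((p.1 : ℝ) ^ 3 * p.2)) 0 :=
          Finset.sum_add_distrib
      _ ≤ ε / 2 * (Y * Y₂) + ε / 2 * (Y * Y₂) := add_le_add hgsum (hcov.trans hfin)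
      _ = ε * (Y * Y₂) := by ring
  rw [hSd] at hgoal
  exact hgoal

end Pool.Agent.T5
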